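import Pool.Agent.H15CM.Defs

set_option autoImplicit false

namespace Pool.Agent.H15CM

/-- One elementary step: a translate of a pair of `H`. -/
def Step {S : Type} [Monoid S] (A : RightAct S) (H : Set (A.carrier × A.carrier))
    (a b : A.carrier) : Prop :=
  ∃ u v s, (u, v) ∈ H ∧ a = A.act u s ∧ b = A.act v s

theorem eqv_act {S : Type} [Monoid S] (A : RightAct S) (H : Set (A.carrier × A.carrier))
    {a b : A.carrier} (h : Relation.EqvGen (Step A H) a b) (s : S) :
    Relation.EqvGen (Step A H) (A.act a s) (A.act b s) := by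
  induction h with
  | rel a b hab =>
    obtain ⟨u, v, t, huv, ha, hb⟩ := hab
    exact Relation.EqvGen.rel _ _ ⟨u, v, t * s, huv, by rw [ha, A.act_mul], by rw [hb, A.act_mul]⟩
  | refl a => exact Relation.EqvGen.refl _
  | symm a b _ ih => exact Relation.EqvGen.symm _ _ ih
  | trans a b c _ _ ih1 ih2 => exact Relation.EqvGen.trans _ _ _ ih1 ih2

theorem eqv_of_gen {S : Type} [Monoid S] (A : RightAct S) (H : Set (A.carrier × A.carrier))
    {a b : A.carrier} (h : Gen A H a b) : Relation.EqvGen (Step A H) a b := by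
  induction h with
  | of a b hab =>
    exact Relation.EqvGen.rel _ _ ⟨a, b, 1, hab, (A.act_one a).symm, (A.act_one b).symm⟩
  | refl a => exact Relation.EqvGen.refl _
  | symm a b _ ih => exact Relation.EqvGen.symm _ _ ih
  | trans a b c _ _ ih1 ih2 => exact Relation.EqvGen.trans _ _ _ ih1 ih2
  | act a b s _ ih => exact eqv_act A H ih s

theorem gen_empty {S : Type} [Monoid S] (A : RightAct S)
    {a b : A.carrier} (h : Gen A ∅ a b) : a = b := by
  induction h with
  | of a b hab => exact absurd hab (by simp)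
  | refl a => rfl
  | symm a b _ ih => exact ih.symm
  | trans a b c _ _ ih1 ih2 => exact ih1.trans ih2
  | act a b s _ ih => rw [ih]

/-- Generated congruences are functorial. -/
theorem gen_map {S : Type} [Monoid S] (A B : RightAct S) (H : Set (A.carrier × A.carrier))
    (K : Set (B.carrier × B.carrier)) (θ : A.carrier → B.carrier)
    (hθ : ∀ a s, θ (A.act a s) = B.act (θ a) s)
    (hH : ∀ a b, (a, b) ∈ H → Gen B K (θ a) (θ b)) {a b : A.carrier} (h : Gen A H a b) :
    Gen B K (θ a) (θ b) := by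
  induction h with
  | of a b hab => exact hH a b hab
  | refl a => exact Gen.refl _
  | symm a b _ ih => exact Gen.symm _ _ ih
  | trans a b c _ _ ih1 ih2 => exact Gen.trans _ _ _ ih1 ih2
  | act a b s _ ih => rw [hθ, hθ]; exact Gen.act _ _ _ ih

/-- Reduction of right coherence to free acts. -/
theorem rightCoherent_of_free (S : Type) [Monoid S]
    (h : ∀ (n : ℕ) (H0 : Set ((freeAct S n).carrier × (freeAct S n).carrier)), H0.Finite →
      ∀ (l : ℕ) (β : Fin l → (freeAct S n).carrier),
      ∃ H1 : Set ((freeAct S l).carrier × (freeAct S l).carrier), H1.Finite ∧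
        ∀ a b : (freeAct S l).carrier,
          Gen (freeAct S n) H0 ((freeAct S n).act (β a.1) a.2) ((freeAct S n).act (β b.1) b.2) ↔
            Gen (freeAct S l) H1 a b) : RightCoherent S := by
  intro A hA X hX
  obtain ⟨n, φ, hφ, hsurj, H0, hH0, hker⟩ := hA
  have hfin : Finite X := hX
  obtain ⟨l, ⟨e⟩⟩ := Finite.exists_equiv_fin X
  have hβ : ∀ j : Fin l, ∃ b, φ b = (e.symm j).1 := fun j => hsurj _
  choose β hβ using hβ
  obtain ⟨H1, hH1, hK⟩ := h n H0 hH0 l β
  refine ⟨l, fun a => ⟨A.act (e.symm a.1).1 a.2, _, (e.symm a.1).2, a.2, rfl⟩, ?_, ?_, H1, hH1, ?_⟩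
  · intro a s
    apply Subtype.ext
    exact A.act_mul _ _ _
  · rintro ⟨a, x, hx, s, hs⟩
    refine ⟨(e ⟨x, hx⟩, s), ?_⟩
    apply Subtype.ext
    change A.act (e.symm (e ⟨x, hx⟩)).1 s = a
    rw [e.symm_apply_apply, hs]
  · intro a b
    rw [← hK a b, ← hker, hφ, hφ, hβ, hβ]
    exact Subtype.ext_iff

end Pool.Agent.H15CM
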