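import Mathlib

set_option autoImplicit false

/-!
# Right acts over monoids, finite presentation, coherence; the monoids `𝒮(M)`
-/

namespace Pool.Agent.H15CM

/-- A right act over the monoid `S`. -/
structure RightAct (S : Type) [Monoid S] where
  carrier : Type
  act : carrier → S → carrier
  act_one : ∀ a, act a 1 = a
  act_mul : ∀ a s t, act a (s * t) = act (act a s) t

/-- The act congruence on `A` generated by a set `H` of pairs. -/
inductive Gen {S : Type} [Monoid S] (A : RightAct S) (H : Set (A.carrier × A.carrier)) :
    A.carrier → A.carrier → Prop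
  | of (a b : A.carrier) : (a, b) ∈ H → Gen A H a b
  | refl (a : A.carrier) : Gen A H a a
  | symm (a b : A.carrier) : Gen A H a b → Gen A H b a
  | trans (a b c : A.carrier) : Gen A H a b → Gen A H b c → Gen A H a c
  | act (a b : A.carrier) (s : S) : Gen A H a b → Gen A H (A.act a s) (A.act b s)

/-- The free right act on `n` generators. -/
def freeAct (S : Type) [Monoid S] (n : ℕ) : RightAct S where
  carrier := Fin n × S
  act a t := (a.1, a.2 * t)
  act_one a := by simp
  act_mul a s t := by simp [mul_assoc]

/-- An act is finitely presented if it is the image of a finitely generated free act under a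
homomorphism whose kernel is a finitely generated congruence. -/
def FinPres {S : Type} [Monoid S] (A : RightAct S) : Prop :=
  ∃ (n : ℕ) (φ : (freeAct S n).carrier → A.carrier),
    (∀ a s, φ ((freeAct S n).act a s) = A.act (φ a) s) ∧ Function.Surjective φ ∧
    ∃ H : Set ((freeAct S n).carrier × (freeAct S n).carrier), H.Finite ∧
      ∀ a b, φ a = φ b ↔ Gen (freeAct S n) H a b

/-- The subact of `A` generated by a set `X`. -/
def subact {S : Type} [Monoid S] (A : RightAct S) (X : Set A.carrier) : RightAct S where
  carrier := {a : A.carrier // ∃ x ∈ X, ∃ s, a = A.act x s}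
  act a t := ⟨A.act a.1 t, by
    obtain ⟨x, hx, s, hs⟩ := a.2
    exact ⟨x, hx, s * t, by rw [hs, A.act_mul]⟩⟩
  act_one a := Subtype.ext (A.act_one _)
  act_mul a s t := Subtype.ext (A.act_mul _ _ _)

/-- An act is coherent if every finitely generated subact is finitely presented. -/
def CoherentAct {S : Type} [Monoid S] (A : RightAct S) : Prop :=
  ∀ X : Set A.carrier, X.Finite → FinPres (subact A X)

/-- A monoid is right coherent if every finitely presented right act is coherent. -/
def RightCoherent (S : Type) [Monoid S] : Prop :=
  ∀ A : RightAct S, FinPres A → CoherentAct A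

/-- Left coherence is the left-right dual of right coherence. -/
def LeftCoherent (S : Type) [Monoid S] : Prop := RightCoherent Sᵐᵒᵖ

/-- The underlying set of `𝒮(M) = 𝒫(M) ⋊ M`. -/
@[ext] structure SM (M : Type) where
  set : Set M
  elt : M

/-- The product `(X, x)(Y, y) = (X ∪ xY, xy)`. -/
instance (M : Type) [Monoid M] : Monoid (SM M) where
  mul a b := ⟨a.set ∪ (fun y => a.elt * y) '' b.set, a.elt * b.elt⟩
  one := ⟨∅, 1⟩
  mul_assoc a b c := by
    change SM.mk _ _ = SM.mk _ _
    congr 1
    · change a.set ∪ (fun y => a.elt * y) '' b.set ∪ (fun y => a.elt * b.elt * y) '' c.set =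
        a.set ∪ (fun y => a.elt * y) '' (b.set ∪ (fun y => b.elt * y) '' c.set)
      rw [Set.image_union, Set.image_image, Set.union_assoc]
      simp only [mul_assoc]
    · exact mul_assoc _ _ _
  one_mul a := by
    change SM.mk _ _ = _
    ext : 1
    · change ∅ ∪ (fun y => 1 * y) '' a.set = a.set
      simp
    · exact one_mul _
  mul_one a := by
    change SM.mk _ _ = _
    ext : 1
    · change a.set ∪ (fun y => a.elt * y) '' ∅ = a.set
      simp
    · exact mul_one _

theorem SM.mul_def {M : Type} [Monoid M] (a b : SM M) :
    a * b = ⟨a.set ∪ (fun y => a.elt * y) '' b.set, a.elt * b.elt⟩ := rfl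

theorem SM.one_def {M : Type} [Monoid M] : (1 : SM M) = ⟨∅, 1⟩ := rfl

/-- The countably infinite right zero semigroup with an identity adjoined. -/
inductive RZ : Type
  | one : RZ
  | z : ℕ → RZ

/-- `x y = y` for `y ≠ 1`. -/
instance : Monoid RZ where
  mul a b := match b with
    | RZ.one => a
    | RZ.z n => RZ.z n
  one := RZ.one
  mul_assoc a b c := by cases c <;> rfl
  one_mul a := by cases a <;> rfl
  mul_one a := rfl

end Pool.Agent.H15CM
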