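import Pool.Agent.H15CM.Right2

set_option autoImplicit false
set_option linter.unusedSectionVars false

/-!
# `𝒮(M)` is not left coherent for the infinite right zero semigroup with identity
-/

namespace Pool.Agent.H15CM

open MulOpposite

/-- The regular right act. -/
def reg (T : Type) [Monoid T] : RightAct T where
  carrier := T
  act a t := a * t
  act_one a := mul_one a
  act_mul a s t := (mul_assoc a s t).symm

theorem reg_finPres (T : Type) [Monoid T] : FinPres (reg T) := by
  refine ⟨1, fun a => a.2, fun a s => rfl, fun t => ⟨(0, t), rfl⟩, ∅, Set.finite_empty, ?_⟩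
  intro a b
  constructor
  · intro h
    have : a = b := Prod.ext (Subsingleton.elim (α := Fin 1) _ _) h
    rw [this]
    exact Gen.refl _
  · intro h
    rw [gen_empty _ h]

/-- If `cT` is finitely presented then the right annihilator congruence of `c` is finitely
generated. -/
theorem ann_fg {T : Type} [Monoid T] (c : (reg T).carrier)
    (h : FinPres (subact (reg T) {c})) :
    ∃ H : Set ((reg T).carrier × (reg T).carrier), H.Finite ∧
      ∀ a b : (reg T).carrier, (reg T).act c a = (reg T).act c b ↔ Gen (reg T) H a b := by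
  obtain ⟨n, ψ, hψ, hsurj, R, hR, hker⟩ := h
  -- generators
  have ht : ∀ i : Fin n, ∃ t : T, (ψ (i, 1)).1 = (reg T).act c t := by
    intro i
    obtain ⟨x, hx, s, hs⟩ := (ψ (i, 1)).2
    have hxc : x = c := hx
    subst hxc
    exact ⟨s, hs⟩
  choose t ht using ht
  have hψ' : ∀ (i : Fin n) (u : T), (ψ (i, u)).1 = (reg T).act c (t i * u) := by
    intro i u
    have h := hψ (i, 1) u
    have e : (freeAct T n).act (i, 1) u = (i, u) := by
      change (i, 1 * u) = _
      rw [one_mul]
    rw [e] at h
    rw [h]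
    change (reg T).act (ψ (i, 1)).1 u = _
    rw [ht, (reg T).act_mul]
  obtain ⟨⟨i0, r0⟩, h0⟩ := hsurj ⟨c, c, rfl, 1, ((reg T).act_one c).symm⟩
  have h0' : (reg T).act c (t i0 * r0) = c := by
    rw [← hψ', h0]
  let θ : (freeAct T n).carrier → (reg T).carrier := fun a => t a.1 * a.2
  let H : Set ((reg T).carrier × (reg T).carrier) :=
    (fun x : (freeAct T n).carrier × (freeAct T n).carrier => (θ x.1, θ x.2)) '' R ∪
      {((1 : T), t i0 * r0)}
  have hθ : ∀ a s, θ ((freeAct T n).act a s) = (reg T).act (θ a) s := by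
    intro a s
    exact (mul_assoc (t a.1) a.2 s).symm
  refine ⟨H, (hR.image _).union (Set.finite_singleton _), fun a b => ⟨?_, ?_⟩⟩
  · intro hab
    have hψab : ψ (i0, r0 * (show T from a)) = ψ (i0, r0 * (show T from b)) := by
      apply Subtype.ext
      have e : ∀ x : T, (reg T).act c (t i0 * (r0 * x)) = (reg T).act c x := by
        intro x
        rw [← mul_assoc, (reg T).act_mul, h0']
      rw [hψ', hψ', e, e]
      exact hab
    have hg := gen_map _ (reg T) R H θ hθ
      (fun a b hab => Gen.of _ _ (Or.inl ⟨(a, b), hab, rfl⟩)) ((hker _ _).1 hψab)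
    have h1 : ∀ x : T, Gen (reg T) H x (θ (i0, r0 * x)) := by
      intro x
      have := Gen.act _ _ x (Gen.of (A := reg T) (H := H) (1 : T) (t i0 * r0) (Or.inr rfl))
      have e1 : (reg T).act (1 : T) x = x := one_mul x
      have e2 : (reg T).act (t i0 * r0 : T) x = θ (i0, r0 * x) := mul_assoc (t i0) r0 x
      rw [e1, e2] at this
      exact this
    exact Gen.trans _ _ _ (h1 a) (Gen.trans _ _ _ hg (Gen.symm _ _ (h1 b)))
  · intro hab
    have key : ∀ a b : (reg T).carrier, Gen (reg T) H a b →
        (reg T).act c a = (reg T).act c b := by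
      intro a b hab
      induction hab with
      | of a b hab =>
        rcases hab with ⟨⟨x, y⟩, hxy, e⟩ | e
        · have e1 : a = θ x := (congrArg Prod.fst e).symm
          have e2 : b = θ y := (congrArg Prod.snd e).symm
          rw [e1, e2]
          change (reg T).act c (t x.1 * x.2) = (reg T).act c (t y.1 * y.2)
          rw [← hψ', ← hψ']
          exact congrArg Subtype.val ((hker x y).2 (Gen.of _ _ hxy))
        · have e1 : a = (1 : T) := congrArg Prod.fst e
          have e2 : b = (t i0 * r0 : T) := congrArg Prod.snd e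
          rw [e1, e2, h0']
          exact (reg T).act_one c
      | refl a => rfl
      | symm a b _ ih => exact ih.symm
      | trans a b c' _ _ ih1 ih2 => exact ih1.trans ih2
      | act a b s _ ih =>
        have e0 : ∀ w x : T, w * (x * s) = w * x * s := fun w x => (mul_assoc w x s).symm
        have e : ∀ x : (reg T).carrier, (reg T).act c ((reg T).act x s) =
            (reg T).act ((reg T).act c x) s := fun x => e0 c x
        rw [e, e, ih]
    exact key a b hab

/-- The total set of an element. -/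
def tot {M : Type} (s : SM M) : Set M := s.set ∪ {s.elt}

theorem tot_mul {M : Type} [Monoid M] (s u : SM M) :
    tot (s * u) = s.set ∪ (fun y => s.elt * y) '' tot u := by
  change s.set ∪ (fun y => s.elt * y) '' u.set ∪ {s.elt * u.elt} = _
  rw [tot, Set.image_union, Set.image_singleton, Set.union_assoc]

theorem not_leftCoherent {M : Type} [Monoid M] (hM : RZL M) [Infinite M] :
    ¬ LeftCoherent (SM M) := by
  intro hL
  obtain ⟨y0, hy0⟩ := exists_ne (1 : M)
  let c : SM M := ⟨{1}, y0⟩
  obtain ⟨H, hH, hker⟩ := ann_fg (T := (SM M)ᵐᵒᵖ) (op c)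
    (hL (reg (SM M)ᵐᵒᵖ) (reg_finPres _) {op c} (Set.finite_singleton _))
  -- the kernel in terms of total sets
  have hkt : ∀ a : SM M, a * c = ⟨tot a, y0⟩ := by
    intro a
    change SM.mk (a.set ∪ (fun y => a.elt * y) '' {1}) (a.elt * y0) = _
    rw [Set.image_singleton, mul_one, hM _ _ hy0]
    rfl
  have hk : ∀ a b : SM M, Gen (reg (SM M)ᵐᵒᵖ) H (op a) (op b) ↔ tot a = tot b := by
    intro a b
    rw [← hker]
    change op (a * c) = op (b * c) ↔ _
    rw [op_inj, hkt, hkt, SM.mk.injEq]
    exact ⟨fun h => h.1, fun h => ⟨h, rfl⟩⟩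
  -- labels
  let F : Set M := {1} ∪ (fun x : (SM M)ᵐᵒᵖ × (SM M)ᵐᵒᵖ => (unop x.1).elt) '' H ∪
    (fun x : (SM M)ᵐᵒᵖ × (SM M)ᵐᵒᵖ => (unop x.2).elt) '' H
  have hF : F.Finite := ((Set.finite_singleton _).union (hH.image _)).union (hH.image _)
  obtain ⟨x, hx⟩ := hF.infinite_compl.nonempty
  obtain ⟨x', hx'⟩ := (hF.union (Set.finite_singleton x)).infinite_compl.nonempty
  have hxF : x ∉ F := hx
  have hxF' : x' ∉ F := fun h => hx' (Or.inl h)
  have hne : x' ≠ x := fun h => hx' (Or.inr h)
  have h1F : (1 : M) ∈ F := Or.inl (Or.inl rfl)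
  have hone : ∀ u v s : SM M, tot u = tot v → u.elt ∈ F → v.elt ∈ F → tot (s * u) ⊆ {x, x'} →
      (s * u).elt = x → (s * v).elt = x := by
    intro u v s huv hu hv hsub hsx
    change s.elt * u.elt = x at hsx
    have hu1 : u.elt = 1 := by
      by_contra h
      rw [hM _ _ h] at hsx
      exact hxF (hsx ▸ hu)
    have hsx' : s.elt = x := by rw [hu1, mul_one] at hsx; exact hsx
    change s.elt * v.elt = x
    by_cases hv1 : v.elt = 1
    · rw [hv1, mul_one]; exact hsx'
    · exfalso
      have hmem : v.elt ∈ tot u := by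
        rw [huv]; exact Or.inr rfl
      have : v.elt ∈ tot (s * u) := by
        rw [tot_mul]
        exact Or.inr ⟨v.elt, hmem, hM _ _ hv1⟩
      rcases hsub this with h | h
      · exact hxF (h ▸ hv)
      · exact hxF' (h ▸ hv)
  have hinv : ∀ a b : (SM M)ᵐᵒᵖ, Relation.EqvGen (Step (reg (SM M)ᵐᵒᵖ) H) a b →
      tot (unop a) = tot (unop b) ∧
        (tot (unop a) ⊆ {x, x'} → ((unop a).elt = x ↔ (unop b).elt = x)) := by
    intro a b hab
    induction hab with
    | rel a b hab =>
      obtain ⟨u, v, s, huv, rfl, rfl⟩ := hab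
      have ht : tot (unop u) = tot (unop v) := by
        rw [← hk]
        exact Gen.of _ _ huv
      have hu : (unop u).elt ∈ F := Or.inl (Or.inr ⟨(u, v), huv, rfl⟩)
      have hv : (unop v).elt ∈ F := Or.inr ⟨(u, v), huv, rfl⟩
      change tot (unop s * unop u) = tot (unop s * unop v) ∧
        (tot (unop s * unop u) ⊆ {x, x'} →
          ((unop s * unop u).elt = x ↔ (unop s * unop v).elt = x))
      have e : tot (unop s * unop u) = tot (unop s * unop v) := by
        rw [tot_mul, tot_mul, ht]
      refine ⟨e, fun hsub => ⟨hone _ _ _ ht hu hv hsub, hone _ _ _ ht.symm hv hu (e ▸ hsub)⟩⟩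
    | refl a => exact ⟨rfl, fun _ => Iff.rfl⟩
    | symm a b _ ih => exact ⟨ih.1.symm, fun h => (ih.2 (ih.1 ▸ h)).symm⟩
    | trans a b d _ _ ih1 ih2 =>
      exact ⟨ih1.1.trans ih2.1, fun h => (ih1.2 h).trans (ih2.2 (ih1.1 ▸ h))⟩
  have hfin := hinv (op ⟨{x, x'}, x⟩) (op ⟨{x, x'}, x'⟩) (eqv_of_gen _ _ ((hk _ _).2 (by
    change ({x, x'} : Set M) ∪ {x} = {x, x'} ∪ {x'}
    ext g; simp only [Set.mem_union, Set.mem_insert_iff, Set.mem_singleton_iff]; tauto)))
  have h := hfin.2 (by
    change ({x, x'} : Set M) ∪ {x} ⊆ {x, x'}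
    intro g; simp only [Set.mem_union, Set.mem_insert_iff, Set.mem_singleton_iff]; tauto)
  change x = x ↔ x' = x at h
  exact hne (h.1 rfl)

theorem RZ_RZL : RZL RZ := by
  intro p h hh
  cases h with
  | one => exact absurd rfl hh
  | z n => rfl

instance : Infinite RZ := Infinite.of_injective RZ.z fun a b h => by
  injection h

end Pool.Agent.H15CM
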