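import Pool.Agent.H15CM.Basic

set_option autoImplicit false

/-!
# Right coherence of `𝒮(M)` when every non-identity element of `M` is a right zero
-/

set_option linter.unusedSectionVars false

namespace Pool.Agent.H15CM

/-- Every non-identity element of `M` is a right zero. -/
def RZL (M : Type) [Monoid M] : Prop := ∀ p h : M, h ≠ 1 → p * h = h

variable {M : Type} [Monoid M]

theorem mulG (hM : RZL M) {F : Set M} (h1 : (1 : M) ∈ F) (p : M) {g : M} (hg : g ∉ F) :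
    p * g = g :=
  hM _ _ (by rintro rfl; exact hg h1)

theorem mulF (hM : RZL M) {F : Set M} {p h : M} (hp : p ∈ F) (hh : h ∈ F) : p * h ∈ F := by
  by_cases e : h = 1
  · rw [e, mul_one]; exact hp
  · rw [hM _ _ e]; exact hh

theorem mulF_iff (hM : RZL M) {F : Set M} (h1 : (1 : M) ∈ F) {p h : M} (hp : p ∈ F) :
    p * h ∈ F ↔ h ∈ F := by
  constructor
  · intro h'
    by_contra hh
    rw [mulG hM h1 p hh] at h'
    exact hh h'
  · exact mulF hM hp

/-- `q` is a union of fibres of `π`. -/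
def Sat {A : Type} (π : M → A) (q : Set M) : Prop := ∀ g g', π g = π g' → g ∈ q → g' ∈ q

/-- The union of the fibres of `π` contained in `W`. -/
def cl {A : Type} (π : M → A) (W : Set M) : Set M := {g | ∀ g', π g' = π g → g' ∈ W}

/-- Replace the part of `Y` outside `F` by that of `q`. -/
def star (F q Y : Set M) : Set M := (Y ∩ F) ∪ (q \ F)

theorem mem_star_F {F q Y : Set M} {g : M} (hg : g ∈ F) : g ∈ star F q Y ↔ g ∈ Y := by
  simp [star, hg]

theorem mem_star_G {F q Y : Set M} {g : M} (hg : g ∉ F) : g ∈ star F q Y ↔ g ∈ q := by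
  simp [star, hg]

theorem mem_img_G (hM : RZL M) {F : Set M} (h1 : (1 : M) ∈ F) {p : M} (hp : p ∈ F) {g : M}
    (hg : g ∉ F) (Y : Set M) : g ∈ (fun y => p * y) '' Y ↔ g ∈ Y := by
  constructor
  · rintro ⟨h, hh, rfl⟩
    have hF : h ∉ F := fun h' => hg (mulF hM hp h')
    have e : p * h = h := mulG hM h1 p hF
    change p * h ∈ Y
    rw [e]; exact hh
  · intro h
    exact ⟨g, h, mulG hM h1 p hg⟩

theorem mem_img_F (hM : RZL M) {F : Set M} (h1 : (1 : M) ∈ F) {p : M} (hp : p ∈ F) {g : M}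
    (hg : g ∈ F) {Y Y' : Set M} (h : ∀ x ∈ F, x ∈ Y ↔ x ∈ Y') :
    g ∈ (fun y => p * y) '' Y ↔ g ∈ (fun y => p * y) '' Y' := by
  have key : ∀ Z Z' : Set M, (∀ x ∈ F, x ∈ Z ↔ x ∈ Z') → g ∈ (fun y => p * y) '' Z →
      g ∈ (fun y => p * y) '' Z' := by
    rintro Z Z' hZ ⟨x, hx, rfl⟩
    have hxF : x ∈ F := (mulF_iff hM h1 hp).1 hg
    exact ⟨x, (hZ x hxF).1 hx, rfl⟩
  exact ⟨key _ _ h, key _ _ fun x hx => (h x hx).symm⟩

theorem key_eq (hM : RZL M) {F : Set M} (h1 : (1 : M) ∈ F) {p : M} (hp : p ∈ F)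
    {U Y q : Set M} (c3 : ∀ g ∈ F, g ∈ q ↔ g ∈ U ∪ (fun y => p * y) '' Y)
    (hU : ∀ g, g ∉ F → g ∈ U → g ∈ q) : U ∪ (fun y => p * y) '' (star F q Y) = q := by
  ext g
  by_cases hg : g ∈ F
  · rw [c3 g hg, Set.mem_union, Set.mem_union,
      mem_img_F hM h1 hp hg (Y := star F q Y) (Y' := Y) fun x hx => mem_star_F hx]
  · rw [Set.mem_union, mem_img_G hM h1 hp hg, mem_star_G hg]
    exact ⟨fun h => h.elim (hU g hg) id, Or.inr⟩

variable {A : Type} {π : M → A}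

theorem sat_union (hM : RZL M) {F : Set M} (h1 : (1 : M) ∈ F)
    (hπ : ∀ g g', π g = π g' → g ∈ F → g = g') {p : M} (hp : p ∈ F)
    {U Y q : Set M} (hU : Sat π U) (hq : Sat π q) :
    Sat π (U ∪ (fun y => p * y) '' (star F q Y)) := by
  intro g g' e hg
  by_cases hgF : g ∈ F
  · rw [← hπ g g' e hgF]; exact hg
  · have hgF' : g' ∉ F := fun h => hgF (by rw [← hπ g' g e.symm h]; exact h)
    rw [Set.mem_union, mem_img_G hM h1 hp hgF, mem_star_G hgF] at hg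
    rw [Set.mem_union, mem_img_G hM h1 hp hgF', mem_star_G hgF']
    exact hg.imp (hU g g' e) (hq g g' e)

theorem sub_of {F : Set M} (hπ : ∀ g g', π g = π g' → g ∈ F → g = g')
    {U W q : Set M} (hU : Sat π U) (hq : Sat π q)
    (c1 : ∀ g, g ∉ F → g ∈ U → g ∈ W ∨ g ∈ q) (c2 : ∀ g, g ∉ F → g ∈ cl π W → g ∈ q) :
    ∀ g, g ∉ F → g ∈ U → g ∈ q := by
  intro g hgF hgU
  by_contra hgq
  apply hgq
  apply c2 g hgF
  intro g' e
  have hgF' : g' ∉ F := fun h => hgF (by rw [← hπ g' g e h]; exact h)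
  rcases c1 g' hgF' (hU g g' e.symm hgU) with h | h
  · exact h
  · exact absurd (hq g' g e h) hgq

/-- The invariant carried along a chain. -/
def Inv (F : Set M) (π : M → A) {n : ℕ}
    (H0 : Set ((freeAct (SM M) n).carrier × (freeAct (SM M) n).carrier))
    (a b : (freeAct (SM M) n).carrier) : Prop :=
  a.2.elt ∈ F → ∀ W q : Set M, Sat π q → (∀ g ∈ F, g ∈ q ↔ g ∈ a.2.set) →
    (∀ g, g ∉ F → g ∈ a.2.set → g ∈ W ∨ g ∈ q) → (∀ g, g ∉ F → g ∈ cl π W → g ∈ q) →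
    ∃ q', Sat π q' ∧ (∀ g ∈ F, g ∈ q' ↔ g ∈ b.2.set) ∧
      (∀ g, g ∉ F → g ∈ b.2.set → g ∈ W ∨ g ∈ q') ∧ (∀ g, g ∉ F → g ∈ q → g ∈ q') ∧
      b.2.elt ∈ F ∧
      Gen (freeAct (SM M) n) H0 (a.1, ⟨q, a.2.elt⟩) (b.1, ⟨q', b.2.elt⟩)

theorem step_inv (hM : RZL M) {F : Set M} (h1 : (1 : M) ∈ F)
    (hπ : ∀ g g', π g = π g' → g ∈ F → g = g') {n : ℕ}
    {H0 : Set ((freeAct (SM M) n).carrier × (freeAct (SM M) n).carrier)}
    {u v : (freeAct (SM M) n).carrier} (huv : Gen (freeAct (SM M) n) H0 u v)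
    (hU : Sat π u.2.set) (hV : Sat π v.2.set) (hu : u.2.elt ∈ F) (hv : v.2.elt ∈ F) (s : SM M) :
    Inv F π H0 ((freeAct (SM M) n).act u s) ((freeAct (SM M) n).act v s) := by
  obtain ⟨i, ⟨U, p⟩⟩ := u
  obtain ⟨i', ⟨V, r⟩⟩ := v
  obtain ⟨Z, z⟩ := s
  simp only at hU hV hu hv
  intro hz W q hq c3 c1 c2
  change p * z ∈ F at hz
  have hzF : z ∈ F := (mulF_iff hM h1 hu).1 hz
  change ∀ g ∈ F, g ∈ q ↔ g ∈ U ∪ (fun y => p * y) '' Z at c3
  change ∀ g, g ∉ F → g ∈ U ∪ (fun y => p * y) '' Z → g ∈ W ∨ g ∈ q at c1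
  have hUq : ∀ g, g ∉ F → g ∈ U → g ∈ q :=
    sub_of hπ hU hq (fun g hg h => c1 g hg (Or.inl h)) c2
  have e1 := key_eq hM h1 hu c3 hUq
  refine ⟨V ∪ (fun y => r * y) '' (star F q Z), sat_union hM h1 hπ hv hV hq, ?_, ?_, ?_, ?_, ?_⟩
  · intro g hg
    change g ∈ V ∪ (fun y => r * y) '' (star F q Z) ↔ g ∈ V ∪ (fun y => r * y) '' Z
    rw [Set.mem_union, Set.mem_union,
      mem_img_F hM h1 hv hg (Y := star F q Z) (Y' := Z) fun x hx => mem_star_F hx]
  · intro g hg h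
    change g ∈ V ∪ (fun y => r * y) '' Z at h
    rw [Set.mem_union, mem_img_G hM h1 hv hg] at h
    rw [Set.mem_union, mem_img_G hM h1 hv hg, mem_star_G hg]
    rcases h with h | h
    · exact Or.inr (Or.inl h)
    · rcases c1 g hg (Or.inr ((mem_img_G hM h1 hu hg Z).2 h)) with h' | h'
      · exact Or.inl h'
      · exact Or.inr (Or.inr h')
  · intro g hg h
    rw [Set.mem_union, mem_img_G hM h1 hv hg, mem_star_G hg]
    exact Or.inr h
  · exact mulF hM hv hzF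
  · have h := Gen.act _ _ (⟨star F q Z, z⟩ : SM M) huv
    have e2 : (freeAct (SM M) n).act (i, ⟨U, p⟩) (⟨star F q Z, z⟩ : SM M) =
        (i, ⟨q, p * z⟩) := by
      change (i, SM.mk (U ∪ (fun y => p * y) '' (star F q Z)) (p * z)) = _
      rw [e1]
    rw [e2] at h
    exact h

theorem inv_refl {F : Set M} {n : ℕ}
    (H0 : Set ((freeAct (SM M) n).carrier × (freeAct (SM M) n).carrier))
    (a : (freeAct (SM M) n).carrier) : Inv F π H0 a a := by
  intro ha W q hq c3 c1 c2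
  exact ⟨q, hq, c3, c1, fun _ _ h => h, ha, Gen.refl _⟩

theorem inv_trans {F : Set M} {n : ℕ}
    {H0 : Set ((freeAct (SM M) n).carrier × (freeAct (SM M) n).carrier)}
    {a b c : (freeAct (SM M) n).carrier} (h1 : Inv F π H0 a b) (h2 : Inv F π H0 b c) :
    Inv F π H0 a c := by
  intro ha W q hq c3 c1 c2
  obtain ⟨q', hq', c3', c1', m', hb, g'⟩ := h1 ha W q hq c3 c1 c2
  obtain ⟨q'', hq'', c3'', c1'', m'', hc, g''⟩ :=
    h2 hb W q' hq' c3' c1' fun g hg h => m' g hg (c2 g hg h)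
  exact ⟨q'', hq'', c3'', c1'', fun g hg h => m'' g hg (m' g hg h), hc, Gen.trans _ _ _ g' g''⟩

theorem inv_eqv (hM : RZL M) {F : Set M} (h1 : (1 : M) ∈ F)
    (hπ : ∀ g g', π g = π g' → g ∈ F → g = g') {n : ℕ}
    {H0 : Set ((freeAct (SM M) n).carrier × (freeAct (SM M) n).carrier)}
    (hH : ∀ u v, (u, v) ∈ H0 → Sat π u.2.set ∧ Sat π v.2.set ∧ u.2.elt ∈ F ∧ v.2.elt ∈ F)
    {a b : (freeAct (SM M) n).carrier}
    (h : Relation.EqvGen (Step (freeAct (SM M) n) H0) a b) : Inv F π H0 a b ∧ Inv F π H0 b a := by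
  induction h with
  | rel a b hab =>
    obtain ⟨u, v, s, huv, rfl, rfl⟩ := hab
    obtain ⟨hU, hV, hu, hv⟩ := hH u v huv
    exact ⟨step_inv hM h1 hπ (Gen.of _ _ huv) hU hV hu hv s,
      step_inv hM h1 hπ (Gen.symm _ _ (Gen.of _ _ huv)) hV hU hv hu s⟩
  | refl a => exact ⟨inv_refl _ _, inv_refl _ _⟩
  | symm a b _ ih => exact ⟨ih.2, ih.1⟩
  | trans a b c _ _ ih1 ih2 => exact ⟨inv_trans ih1.1 ih2.1, inv_trans ih2.2 ih1.2⟩

/-- The finite set of saturated pairs in the kernel. -/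
def H1 (F : Set M) (π : M → A) {n : ℕ}
    (H0 : Set ((freeAct (SM M) n).carrier × (freeAct (SM M) n).carrier)) {l : ℕ}
    (β : Fin l → (freeAct (SM M) n).carrier) :
    Set ((freeAct (SM M) l).carrier × (freeAct (SM M) l).carrier) :=
  {ab | (Sat π ab.1.2.set ∧ ab.1.2.elt ∈ F) ∧ (Sat π ab.2.2.set ∧ ab.2.2.elt ∈ F) ∧
    Gen (freeAct (SM M) n) H0 ((freeAct (SM M) n).act (β ab.1.1) ab.1.2)
      ((freeAct (SM M) n).act (β ab.2.1) ab.2.2)}

theorem one_side (hM : RZL M) {F : Set M} (h1 : (1 : M) ∈ F)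
    (hπ : ∀ g g', π g = π g' → g ∈ F → g = g') {n : ℕ}
    {H0 : Set ((freeAct (SM M) n).carrier × (freeAct (SM M) n).carrier)}
    (hH : ∀ u v, (u, v) ∈ H0 → Sat π u.2.set ∧ Sat π v.2.set ∧ u.2.elt ∈ F ∧ v.2.elt ∈ F)
    {l : ℕ} (β : Fin l → (freeAct (SM M) n).carrier)
    (hβ : ∀ j, Sat π (β j).2.set ∧ (β j).2.elt ∈ F)
    (a b : (freeAct (SM M) l).carrier) (ha : a.2.elt ∈ F) (hb : b.2.elt ∈ F)
    (hab : Gen (freeAct (SM M) n) H0 ((freeAct (SM M) n).act (β a.1) a.2)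
      ((freeAct (SM M) n).act (β b.1) b.2)) :
    ∃ D : Set M, (∀ g ∈ D, g ∉ F) ∧
      Gen (freeAct (SM M) l) (H1 F π H0 β) a (b.1, ⟨b.2.set ∪ D, b.2.elt⟩) := by
  obtain ⟨j, ⟨Y, y⟩⟩ := a
  obtain ⟨j', ⟨Y', y'⟩⟩ := b
  simp only at ha hb hab ⊢
  have hβj := hβ j
  have hβj' := hβ j'
  rcases hbj : β j with ⟨i, ⟨B, c⟩⟩
  rcases hbj' : β j' with ⟨i', ⟨B', c'⟩⟩
  rw [hbj] at hβj hab
  rw [hbj'] at hβj' hab
  simp only at hβj hβj'
  have hinv := (inv_eqv hM h1 hπ hH (eqv_of_gen _ _ hab)).1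
  -- the starting saturated set
  have hclsat : Sat π (cl π Y) := by
    intro g g' e hg g'' e'
    exact hg g'' (e'.trans e.symm)
  have hY0 : cl π Y ⊆ Y := fun g hg => hg g rfl
  have hcF : c * y ∈ F := mulF hM hβj.2 ha
  obtain ⟨q', hq', c3', c1', m', -, hgen⟩ := hinv hcF Y
    (B ∪ (fun y => c * y) '' (star F (cl π Y) Y))
    (sat_union hM h1 hπ hβj.2 hβj.1 hclsat)
    (by
      intro g hg
      change g ∈ B ∪ (fun y => c * y) '' (star F (cl π Y) Y) ↔ g ∈ B ∪ (fun y => c * y) '' Y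
      rw [Set.mem_union, Set.mem_union,
        mem_img_F hM h1 hβj.2 hg (Y := star F (cl π Y) Y) (Y' := Y) fun x hx => mem_star_F hx])
    (by
      intro g hg h
      change g ∈ B ∪ (fun y => c * y) '' Y at h
      rw [Set.mem_union, mem_img_G hM h1 hβj.2 hg] at h
      rw [Set.mem_union]
      exact h.elim (fun h => Or.inr (Or.inl h)) Or.inl)
    (by
      intro g hg h
      rw [Set.mem_union, mem_img_G hM h1 hβj.2 hg, mem_star_G hg]
      exact Or.inr h)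
  change ∀ g ∈ F, g ∈ q' ↔ g ∈ B' ∪ (fun y => c' * y) '' Y' at c3'
  change ∀ g, g ∉ F → g ∈ B' ∪ (fun y => c' * y) '' Y' → g ∈ Y ∨ g ∈ q' at c1'
  have hcl : ∀ g, g ∉ F → g ∈ cl π Y → g ∈ q' := by
    intro g hg h
    apply m' g hg
    rw [Set.mem_union, mem_img_G hM h1 hβj.2 hg, mem_star_G hg]
    exact Or.inr h
  have hB'q : ∀ g, g ∉ F → g ∈ B' → g ∈ q' :=
    sub_of hπ hβj'.1 hq' (fun g hg h => c1' g hg (Or.inl h)) hcl
  have e1 := key_eq hM h1 hβj'.2 c3' hB'q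
  -- the pair in `H1`
  have hpair : ((j, ⟨star F (cl π Y) Y, y⟩), (j', ⟨star F q' Y', y'⟩)) ∈ H1 F π H0 β := by
    have hstar : ∀ q Y : Set M, Sat π q → Sat π (star F q Y) := by
      intro q Y hq g g' e hg
      by_cases hgF : g ∈ F
      · rw [← hπ g g' e hgF]; exact hg
      · have hgF' : g' ∉ F := fun h => hgF (by rw [← hπ g' g e.symm h]; exact h)
        rw [mem_star_G hgF] at hg
        rw [mem_star_G hgF']
        exact hq g g' e hg
    refine ⟨⟨hstar _ _ hclsat, ha⟩, ⟨hstar _ _ hq', hb⟩, ?_⟩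
    change Gen (freeAct (SM M) n) H0 ((freeAct (SM M) n).act (β j) ⟨star F (cl π Y) Y, y⟩)
      ((freeAct (SM M) n).act (β j') ⟨star F q' Y', y'⟩)
    rw [hbj, hbj']
    change Gen (freeAct (SM M) n) H0
      (i, SM.mk (B ∪ (fun y => c * y) '' (star F (cl π Y) Y)) (c * y))
      (i', SM.mk (B' ∪ (fun y => c' * y) '' (star F q' Y')) (c' * y'))
    rw [e1]
    exact hgen
  refine ⟨(Y ∪ q') \ F, fun g hg => hg.2, ?_⟩
  have h := Gen.act _ _ (⟨Y \ F, 1⟩ : SM M) (Gen.of _ _ hpair)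
  have himg : ∀ t : M, (fun x => t * x) '' (Y \ F) = Y \ F := by
    intro t
    ext g
    constructor
    · rintro ⟨x, hx, rfl⟩
      change t * x ∈ Y \ F
      rw [mulG hM h1 t hx.2]
      exact hx
    · intro hg
      exact ⟨g, hg, mulG hM h1 t hg.2⟩
  have e2 : (freeAct (SM M) l).act (j, ⟨star F (cl π Y) Y, y⟩) (⟨Y \ F, 1⟩ : SM M) =
      (j, ⟨Y, y⟩) := by
    change (j, SM.mk (star F (cl π Y) Y ∪ (fun x => y * x) '' (Y \ F)) (y * 1)) = _
    rw [himg, mul_one]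
    congr 2
    ext g
    by_cases hg : g ∈ F
    · rw [Set.mem_union, mem_star_F hg]
      simp [hg]
    · rw [Set.mem_union, mem_star_G hg]
      constructor
      · rintro (h | h)
        · exact hY0 h
        · exact h.1
      · intro h
        exact Or.inr ⟨h, hg⟩
  have e3 : (freeAct (SM M) l).act (j', ⟨star F q' Y', y'⟩) (⟨Y \ F, 1⟩ : SM M) =
      (j', ⟨Y' ∪ (Y ∪ q') \ F, y'⟩) := by
    change (j', SM.mk (star F q' Y' ∪ (fun x => y' * x) '' (Y \ F)) (y' * 1)) = _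
    rw [himg, mul_one]
    congr 2
    ext g
    by_cases hg : g ∈ F
    · rw [Set.mem_union, mem_star_F hg]
      simp [hg]
    · rw [Set.mem_union, mem_star_G hg]
      constructor
      · rintro (h | h)
        · exact Or.inr ⟨Or.inr h, hg⟩
        · exact Or.inr ⟨Or.inl h.1, hg⟩
      · rintro (h | h)
        · rcases c1' g hg (Or.inr ((mem_img_G hM h1 hβj'.2 hg Y').2 h)) with h' | h'
          · exact Or.inr ⟨h', hg⟩
          · exact Or.inl h'
        · rcases h.1 with h' | h'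
          · exact Or.inr ⟨h', hg⟩
          · exact Or.inl h'
  rw [e2, e3] at h
  exact h

end Pool.Agent.H15CM
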