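import Pool.Agent.H15CM.Right

set_option autoImplicit false
set_option linter.unusedSectionVars false

namespace Pool.Agent.H15CM

variable {M : Type} [Monoid M] {A : Type} {π : M → A}

/-- Right multiplication by `(D, 1)` with `D` disjoint from `F`. -/
theorem act_D (hM : RZL M) {F : Set M} (h1 : (1 : M) ∈ F) {l : ℕ} (j : Fin l) (Y D : Set M)
    (y : M) (hD : ∀ g ∈ D, g ∉ F) :
    (freeAct (SM M) l).act (j, ⟨Y, y⟩) (⟨D, 1⟩ : SM M) = (j, ⟨Y ∪ D, y⟩) := by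
  change (j, SM.mk (Y ∪ (fun x => y * x) '' D) (y * 1)) = _
  have himg : (fun x => y * x) '' D = D := by
    ext g
    constructor
    · rintro ⟨x, hx, rfl⟩
      change y * x ∈ D
      rw [mulG hM h1 y (hD x hx)]
      exact hx
    · intro hg
      exact ⟨g, hg, mulG hM h1 y (hD g hg)⟩
  rw [himg, mul_one]

theorem F_case (hM : RZL M) {F : Set M} (h1 : (1 : M) ∈ F)
    (hπ : ∀ g g', π g = π g' → g ∈ F → g = g') {n : ℕ}
    {H0 : Set ((freeAct (SM M) n).carrier × (freeAct (SM M) n).carrier)}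
    (hH : ∀ u v, (u, v) ∈ H0 → Sat π u.2.set ∧ Sat π v.2.set ∧ u.2.elt ∈ F ∧ v.2.elt ∈ F)
    {l : ℕ} (β : Fin l → (freeAct (SM M) n).carrier)
    (hβ : ∀ j, Sat π (β j).2.set ∧ (β j).2.elt ∈ F)
    (a b : (freeAct (SM M) l).carrier) (ha : a.2.elt ∈ F) (hb : b.2.elt ∈ F)
    (hab : Gen (freeAct (SM M) n) H0 ((freeAct (SM M) n).act (β a.1) a.2)
      ((freeAct (SM M) n).act (β b.1) b.2)) :
    Gen (freeAct (SM M) l) (H1 F π H0 β) a b := by
  obtain ⟨D1, hD1, k1⟩ := one_side hM h1 hπ hH β hβ a b ha hb hab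
  obtain ⟨D2, hD2, k2⟩ := one_side hM h1 hπ hH β hβ b a hb ha (Gen.symm _ _ hab)
  obtain ⟨j, ⟨Y, y⟩⟩ := a
  obtain ⟨j', ⟨Y', y'⟩⟩ := b
  simp only at k1 k2
  have hD : ∀ g ∈ D1 ∪ D2, g ∉ F := fun g hg => hg.elim (hD1 g) (hD2 g)
  have m3 := Gen.act _ _ (⟨D1 ∪ D2, 1⟩ : SM M) k1
  have m2 := Gen.act _ _ (⟨D1, 1⟩ : SM M) k2
  have m1 := Gen.act _ _ (⟨D2, 1⟩ : SM M) k1
  rw [act_D hM h1 _ _ _ _ hD, act_D hM h1 _ _ _ _ hD] at m3
  rw [act_D hM h1 _ _ _ _ hD1, act_D hM h1 _ _ _ _ hD1] at m2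
  rw [act_D hM h1 _ _ _ _ hD2, act_D hM h1 _ _ _ _ hD2] at m1
  have e1 : Y' ∪ D1 ∪ (D1 ∪ D2) = Y' ∪ (D1 ∪ D2) := by
    ext g; simp only [Set.mem_union]; tauto
  have e2 : Y ∪ D2 ∪ D1 = Y ∪ (D1 ∪ D2) := by
    ext g; simp only [Set.mem_union]; tauto
  have e3 : Y' ∪ D1 ∪ D2 = Y' ∪ (D1 ∪ D2) := by
    ext g; simp only [Set.mem_union]; tauto
  rw [e1] at m3
  rw [e2] at m2
  rw [e3] at m1
  exact Gen.trans _ _ _ k1 (Gen.trans _ _ _ m2 (Gen.trans _ _ _ m3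
    (Gen.trans _ _ _ (Gen.symm _ _ m1) (Gen.symm _ _ k2))))

/-- Labels outside `F` are constant along chains. -/
theorem label_eqv (hM : RZL M) {F : Set M} (h1 : (1 : M) ∈ F) {n : ℕ}
    {H0 : Set ((freeAct (SM M) n).carrier × (freeAct (SM M) n).carrier)}
    (hH : ∀ u v, (u, v) ∈ H0 → u.2.elt ∈ F ∧ v.2.elt ∈ F)
    {a b : (freeAct (SM M) n).carrier}
    (h : Relation.EqvGen (Step (freeAct (SM M) n) H0) a b) :
    a.2.elt = b.2.elt ∨ (a.2.elt ∈ F ∧ b.2.elt ∈ F) := by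
  induction h with
  | rel a b hab =>
    obtain ⟨u, v, s, huv, rfl, rfl⟩ := hab
    obtain ⟨hu, hv⟩ := hH u v huv
    change u.2.elt * s.elt = v.2.elt * s.elt ∨ (u.2.elt * s.elt ∈ F ∧ v.2.elt * s.elt ∈ F)
    by_cases hs : s.elt ∈ F
    · exact Or.inr ⟨mulF hM hu hs, mulF hM hv hs⟩
    · left
      rw [mulG hM h1 _ hs, mulG hM h1 _ hs]
  | refl a => exact Or.inl rfl
  | symm a b _ ih =>
    rcases ih with h | h
    · exact Or.inl h.symm
    · exact Or.inr ⟨h.2, h.1⟩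
  | trans a b c _ _ ih1 ih2 =>
    rcases ih1 with h | h
    · rcases ih2 with h' | h'
      · exact Or.inl (h.trans h')
      · exact Or.inr ⟨by rw [h]; exact h'.1, h'.2⟩
    · rcases ih2 with h' | h'
      · exact Or.inr ⟨h.1, by rw [← h']; exact h.2⟩
      · exact Or.inr ⟨h.1, h'.2⟩

theorem all_case (hM : RZL M) {F : Set M} (h1 : (1 : M) ∈ F) {y0 : M} (hy0 : y0 ∈ F)
    (hy1 : y0 ≠ 1)
    (hπ : ∀ g g', π g = π g' → g ∈ F → g = g') {n : ℕ}
    {H0 : Set ((freeAct (SM M) n).carrier × (freeAct (SM M) n).carrier)}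
    (hH : ∀ u v, (u, v) ∈ H0 → Sat π u.2.set ∧ Sat π v.2.set ∧ u.2.elt ∈ F ∧ v.2.elt ∈ F)
    {l : ℕ} (β : Fin l → (freeAct (SM M) n).carrier)
    (hβ : ∀ j, Sat π (β j).2.set ∧ (β j).2.elt ∈ F)
    (a b : (freeAct (SM M) l).carrier)
    (hab : Gen (freeAct (SM M) n) H0 ((freeAct (SM M) n).act (β a.1) a.2)
      ((freeAct (SM M) n).act (β b.1) b.2)) :
    Gen (freeAct (SM M) l) (H1 F π H0 β) a b := by
  have hlab := label_eqv hM h1 (fun u v huv => (hH u v huv).2.2) (eqv_of_gen _ _ hab)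
  obtain ⟨j, ⟨Y, y⟩⟩ := a
  obtain ⟨j', ⟨Y', y'⟩⟩ := b
  change (β j).2.elt * y = (β j').2.elt * y' ∨
    ((β j).2.elt * y ∈ F ∧ (β j').2.elt * y' ∈ F) at hlab
  have hc := (hβ j).2
  have hc' := (hβ j').2
  by_cases hyF : y ∈ F
  · -- then `y' ∈ F` too
    have hyF' : y' ∈ F := by
      rcases hlab with h | h
      · rw [← mulF_iff hM h1 hc', ← h]
        exact mulF hM hc hyF
      · exact (mulF_iff hM h1 hc').1 h.2
    exact F_case hM h1 hπ hH β hβ _ _ hyF hyF' hab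
  · have e : y = y' := by
      rcases hlab with h | h
      · have hyF' : y' ∉ F := by
          intro h'
          apply hyF
          rw [← mulF_iff hM h1 hc, h]
          exact mulF hM hc' h'
        rw [mulG hM h1 _ hyF, mulG hM h1 _ hyF'] at h
        exact h
      · exact absurd ((mulF_iff hM h1 hc).1 h.1) hyF
    subst e
    have hyne : y ≠ 1 := fun h => hyF (by rw [h]; exact h1)
    -- pass to the label `y0`
    have hact : ∀ (k : ℕ) (i : Fin k) (Z : Set M) (t w : M), w ≠ 1 →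
        (freeAct (SM M) k).act (i, ⟨Z, t⟩) (⟨∅, w⟩ : SM M) = (i, ⟨Z, w⟩) := by
      intro k i Z t w hw
      change (i, SM.mk (Z ∪ (fun x => t * x) '' ∅) (t * w)) = _
      rw [Set.image_empty, Set.union_empty, hM t w hw]
    have h2 := Gen.act _ _ (⟨∅, y0⟩ : SM M) hab
    have e3 : ∀ (i : Fin l) (Z : Set M), (freeAct (SM M) n).act
        ((freeAct (SM M) n).act (β i) (⟨Z, y⟩ : SM M)) (⟨∅, y0⟩ : SM M) =
        (freeAct (SM M) n).act (β i) (⟨Z, y0⟩ : SM M) := by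
      intro i Z
      rw [← (freeAct (SM M) n).act_mul]
      congr 1
      change SM.mk (Z ∪ (fun x => y * x) '' ∅) (y * y0) = _
      rw [Set.image_empty, Set.union_empty, hM y y0 hy1]
    rw [e3, e3] at h2
    have h3 := F_case hM h1 hπ hH β hβ (j, ⟨Y, y0⟩) (j', ⟨Y', y0⟩) hy0 hy0 h2
    have h4 := Gen.act _ _ (⟨∅, y⟩ : SM M) h3
    rw [hact _ _ _ _ _ hyne, hact _ _ _ _ _ hyne] at h4
    exact h4

theorem H1_finite {F : Set M} (hF : F.Finite) [Finite A] {n : ℕ}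
    (H0 : Set ((freeAct (SM M) n).carrier × (freeAct (SM M) n).carrier)) {l : ℕ}
    (β : Fin l → (freeAct (SM M) n).carrier) : (H1 F π H0 β).Finite := by
  have hsat : {q : Set M | Sat π q}.Finite := by
    apply (Set.finite_range (fun T : Set A => π ⁻¹' T)).subset
    intro q hq
    refine ⟨π '' q, ?_⟩
    ext g
    constructor
    · rintro ⟨g', hg', e⟩
      exact hq g' g e hg'
    · intro hg
      exact ⟨g, hg, rfl⟩
  have hE : {x : Fin l × SM M | Sat π x.2.set ∧ x.2.elt ∈ F}.Finite := by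
    apply ((Set.finite_univ (α := Fin l)).prod (hsat.prod hF)).image
      (fun t : Fin l × (Set M × M) => (t.1, SM.mk t.2.1 t.2.2)) |>.subset
    rintro ⟨j, ⟨q, y⟩⟩ ⟨h, h'⟩
    exact ⟨(j, (q, y)), ⟨trivial, h, h'⟩, rfl⟩
  apply (hE.prod hE).subset
  rintro ⟨a, b⟩ ⟨h, h', -⟩
  exact ⟨h, h'⟩

theorem rightCoherent_of_RZL (hM : RZL M) (hne : ∃ y : M, y ≠ 1) : RightCoherent (SM M) := by
  apply rightCoherent_of_free
  intro n H0 hH0 l β
  obtain ⟨y0, hy0⟩ := hne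
  -- labels
  let F : Set M := {1, y0} ∪ (fun x : (freeAct (SM M) n).carrier × (freeAct (SM M) n).carrier =>
    x.1.2.elt) '' H0 ∪ (fun x : (freeAct (SM M) n).carrier × (freeAct (SM M) n).carrier =>
    x.2.2.elt) '' H0 ∪ Set.range (fun j => (β j).2.elt)
  have hF : F.Finite :=
    ((((Set.toFinite {1, y0}).union (hH0.image _)).union (hH0.image _)).union
      (Set.finite_range _))
  -- sets
  let 𝒰 : Set (Set M) := (fun x : (freeAct (SM M) n).carrier × (freeAct (SM M) n).carrier =>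
    x.1.2.set) '' H0 ∪ (fun x : (freeAct (SM M) n).carrier × (freeAct (SM M) n).carrier =>
    x.2.2.set) '' H0 ∪ Set.range (fun j => (β j).2.set)
  have hU : 𝒰.Finite := (((hH0.image _)).union (hH0.image _)).union (Set.finite_range _)
  let π : M → (↥𝒰 → Prop) × (↥F → Prop) := fun g => (fun U => g ∈ U.1, fun f => g = f.1)
  have hfin1 : Finite ↥F := hF
  have hfin2 : Finite ↥𝒰 := hU
  have h1 : (1 : M) ∈ F := Or.inl (Or.inl (Or.inl (Or.inl rfl)))
  have h0 : y0 ∈ F := Or.inl (Or.inl (Or.inl (Or.inr rfl)))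
  have hπ : ∀ g g', π g = π g' → g ∈ F → g = g' := by
    intro g g' e hg
    have h := congrFun (congrArg Prod.snd e) ⟨g, hg⟩
    change (g = g) = (g' = g) at h
    have h' : g' = g := by rw [← h]
    exact h'.symm
  have hsat : ∀ U ∈ 𝒰, Sat π U := by
    intro U hU g g' e hg
    have h := congrFun (congrArg Prod.fst e) ⟨U, hU⟩
    change (g ∈ U) = (g' ∈ U) at h
    rw [← h]; exact hg
  have hH : ∀ u v, (u, v) ∈ H0 → Sat π u.2.set ∧ Sat π v.2.set ∧ u.2.elt ∈ F ∧ v.2.elt ∈ F := by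
    intro u v huv
    exact ⟨hsat _ (Or.inl (Or.inl ⟨(u, v), huv, rfl⟩)), hsat _ (Or.inl (Or.inr ⟨(u, v), huv, rfl⟩)),
      Or.inl (Or.inl (Or.inr ⟨(u, v), huv, rfl⟩)), Or.inl (Or.inr ⟨(u, v), huv, rfl⟩)⟩
  have hβ : ∀ j, Sat π (β j).2.set ∧ (β j).2.elt ∈ F := fun j =>
    ⟨hsat _ (Or.inr ⟨j, rfl⟩), Or.inr ⟨j, rfl⟩⟩
  refine ⟨H1 F π H0 β, H1_finite hF H0 β, fun a b => ⟨?_, ?_⟩⟩
  · intro h
    exact all_case hM h1 h0 hy0 hπ hH β hβ a b h
  · intro h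
    have := gen_map (freeAct (SM M) l) (freeAct (SM M) n) (H1 F π H0 β) H0
      (fun a => (freeAct (SM M) n).act (β a.1) a.2)
      (by
        intro a s
        exact (freeAct (SM M) n).act_mul _ _ _)
      (fun a b hab => hab.2.2) h
    exact this

end Pool.Agent.H15CM
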